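import Mathlib

/-!
# Bigraded difference functions
-/

namespace Pool.Agent.Helper30.DI

/-- The function vanishes outside the square `[-N, N]²`. -/
def Box (N : ℕ) (f : ℤ → ℤ → ℤ) : Prop :=
  ∀ p q : ℤ, (p < -N ∨ N < p ∨ q < -N ∨ N < q) → f p q = 0

/-- Multiplication with `1 + u`. -/
def U (f : ℤ → ℤ → ℤ) : ℤ → ℤ → ℤ := fun p q => f p q + f (p - 1) q

/-- Multiplication with `1 + v`. -/
def V (f : ℤ → ℤ → ℤ) : ℤ → ℤ → ℤ := fun p q => f p q + f p (q - 1)

/-- Exchange of the variables. -/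
def T (f : ℤ → ℤ → ℤ) : ℤ → ℤ → ℤ := fun p q => f q p

/-- Duality. -/
def D (m m' : ℤ) (f : ℤ → ℤ → ℤ) : ℤ → ℤ → ℤ := fun p q => f (m - p) (m' - q)

/-- The sum over the diagonal `p - q = i`, with signs `s ^ q`. -/
noncomputable def W (s : ℤˣ) (f : ℤ → ℤ → ℤ) (i : ℤ) : ℤ :=
  ∑ᶠ q : ℤ, ((s ^ q : ℤˣ) : ℤ) * f (i + q) q

theorem Box.mono {N M : ℕ} {f : ℤ → ℤ → ℤ} (h : Box N f) (hNM : N ≤ M) : Box M f := by
  intro p q hpq
  exact h p q (by omega)

theorem Box.U {N : ℕ} {f : ℤ → ℤ → ℤ} (h : Box N f) : Box (N + 1) (U f) := by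
  intro p q hpq
  unfold DI.U
  rw [h p q (by push_cast at hpq; omega), h (p - 1) q (by push_cast at hpq; omega), add_zero]

theorem Box.V {N : ℕ} {f : ℤ → ℤ → ℤ} (h : Box N f) : Box (N + 1) (V f) := by
  intro p q hpq
  unfold DI.V
  rw [h p q (by push_cast at hpq; omega), h p (q - 1) (by push_cast at hpq; omega), add_zero]

theorem Box.V_iter {N : ℕ} {f : ℤ → ℤ → ℤ} (h : Box N f) (a : ℕ) : Box (N + a) (DI.V^[a] f) := by
  induction a with
  | zero => simpa using h
  | succ a ih =>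
    rw [Function.iterate_succ_apply', ← add_assoc]
    exact ih.V

theorem Box.U_iter {N : ℕ} {f : ℤ → ℤ → ℤ} (h : Box N f) (a : ℕ) : Box (N + a) (DI.U^[a] f) := by
  induction a with
  | zero => simpa using h
  | succ a ih =>
    rw [Function.iterate_succ_apply', ← add_assoc]
    exact ih.U

theorem Box.T {N : ℕ} {f : ℤ → ℤ → ℤ} (h : Box N f) : Box N (T f) := by
  intro p q hpq
  exact h q p (by omega)

theorem Box.D {N : ℕ} {f : ℤ → ℤ → ℤ} (h : Box N f) (m m' : ℤ) :
    Box (N + m.natAbs + m'.natAbs) (D m m' f) := by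
  intro p q hpq
  exact h _ _ (by simp only [Nat.cast_add] at hpq; omega)

theorem Box.sub {N : ℕ} {f g : ℤ → ℤ → ℤ} (hf : Box N f) (hg : Box N g) : Box N (f - g) := by
  intro p q hpq
  simp [hf p q hpq, hg p q hpq]

theorem U_sub (f g : ℤ → ℤ → ℤ) : U (f - g) = U f - U g := by
  funext p q; simp only [U, Pi.sub_apply]; ring

theorem V_sub (f g : ℤ → ℤ → ℤ) : V (f - g) = V f - V g := by
  funext p q; simp only [V, Pi.sub_apply]; ring

theorem U_iter_sub (f g : ℤ → ℤ → ℤ) (a : ℕ) : U^[a] (f - g) = U^[a] f - U^[a] g := by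
  induction a with
  | zero => rfl
  | succ a ih => rw [Function.iterate_succ_apply', ih, U_sub, ← Function.iterate_succ_apply' U,
      ← Function.iterate_succ_apply' U]

theorem V_iter_sub (f g : ℤ → ℤ → ℤ) (a : ℕ) : V^[a] (f - g) = V^[a] f - V^[a] g := by
  induction a with
  | zero => rfl
  | succ a ih => rw [Function.iterate_succ_apply', ih, V_sub, ← Function.iterate_succ_apply' V,
      ← Function.iterate_succ_apply' V]

theorem comm_UV : Function.Commute U V := by
  intro f
  funext p q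
  simp only [U, V]
  ring

theorem T_U (f : ℤ → ℤ → ℤ) : T (U f) = V (T f) := rfl

theorem T_V (f : ℤ → ℤ → ℤ) : T (V f) = U (T f) := rfl

theorem T_U_iter (f : ℤ → ℤ → ℤ) (a : ℕ) : T (U^[a] f) = V^[a] (T f) := by
  induction a generalizing f with
  | zero => rfl
  | succ a ih => rw [Function.iterate_succ_apply, Function.iterate_succ_apply, ih, T_U]

theorem T_V_iter (f : ℤ → ℤ → ℤ) (a : ℕ) : T (V^[a] f) = U^[a] (T f) := by
  induction a generalizing f with
  | zero => rfl
  | succ a ih => rw [Function.iterate_succ_apply, Function.iterate_succ_apply, ih, T_V]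

theorem D_U (m m' : ℤ) (f : ℤ → ℤ → ℤ) : D (m + 1) m' (U f) = U (D m m' f) := by
  funext p q
  simp only [U, D]
  rw [add_comm, show m + 1 - p - 1 = m - p by ring, show m - (p - 1) = m + 1 - p by ring]

theorem D_V (m m' : ℤ) (f : ℤ → ℤ → ℤ) : D m (m' + 1) (V f) = V (D m m' f) := by
  funext p q
  simp only [V, D]
  rw [add_comm, show m' + 1 - q - 1 = m' - q by ring, show m' - (q - 1) = m' + 1 - q by ring]

theorem D_U_iter (m m' : ℤ) (f : ℤ → ℤ → ℤ) (a : ℕ) :
    D (m + a) m' (U^[a] f) = U^[a] (D m m' f) := by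
  induction a with
  | zero => simp
  | succ a ih =>
    rw [Function.iterate_succ_apply', Function.iterate_succ_apply', ← ih,
      show m + ((a + 1 : ℕ) : ℤ) = m + a + 1 by push_cast; ring, D_U]

theorem D_V_iter (m m' : ℤ) (f : ℤ → ℤ → ℤ) (a : ℕ) :
    D m (m' + a) (V^[a] f) = V^[a] (D m m' f) := by
  induction a with
  | zero => simp
  | succ a ih =>
    rw [Function.iterate_succ_apply', Function.iterate_succ_apply', ← ih,
      show m' + ((a + 1 : ℕ) : ℤ) = m' + a + 1 by push_cast; ring, D_V]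

/-- `1 + u` is injective in low degrees. -/
theorem U_low {N : ℕ} {f : ℤ → ℤ → ℤ} (hf : Box N f) (d : ℤ)
    (h : ∀ p q : ℤ, p + q ≤ d → U f p q = 0) (p q : ℤ) (hpq : p + q ≤ d) : f p q = 0 := by
  have key : ∀ k : ℕ, ∀ p : ℤ, p ≤ -N - 1 + k → p + q ≤ d → f p q = 0 := by
    intro k
    induction k with
    | zero => intro p hp _; exact hf p q (by push_cast at hp; omega)
    | succ k ih =>
      intro p hp hd
      have h1 := h p q hd
      have h2 := ih (p - 1) (by push_cast at hp; omega) (by omega)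
      unfold U at h1
      omega
  exact key (p + N + 1).toNat p (by omega) hpq

theorem V_low {N : ℕ} {f : ℤ → ℤ → ℤ} (hf : Box N f) (d : ℤ)
    (h : ∀ p q : ℤ, p + q ≤ d → V f p q = 0) (p q : ℤ) (hpq : p + q ≤ d) : f p q = 0 := by
  refine U_low (f := T f) hf.T d ?_ q p (by omega)
  intro p q hpq
  exact h q p (by omega)

theorem U_iter_low {N : ℕ} {f : ℤ → ℤ → ℤ} (hf : Box N f) (d : ℤ) (a : ℕ)
    (h : ∀ p q : ℤ, p + q ≤ d → U^[a] f p q = 0) (p q : ℤ) (hpq : p + q ≤ d) : f p q = 0 := by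
  induction a generalizing p q with
  | zero => exact h p q hpq
  | succ a ih =>
    refine ih ?_ p q hpq
    intro p q hpq
    refine U_low (hf.U_iter a) d ?_ p q hpq
    intro p q hpq
    have := h p q hpq
    rwa [Function.iterate_succ_apply'] at this

theorem V_iter_low {N : ℕ} {f : ℤ → ℤ → ℤ} (hf : Box N f) (d : ℤ) (a : ℕ)
    (h : ∀ p q : ℤ, p + q ≤ d → V^[a] f p q = 0) (p q : ℤ) (hpq : p + q ≤ d) : f p q = 0 := by
  induction a generalizing p q with
  | zero => exact h p q hpq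
  | succ a ih =>
    refine ih ?_ p q hpq
    intro p q hpq
    refine V_low (hf.V_iter a) d ?_ p q hpq
    intro p q hpq
    have := h p q hpq
    rwa [Function.iterate_succ_apply'] at this

theorem UV_low {N : ℕ} {f : ℤ → ℤ → ℤ} (hf : Box N f) (d : ℤ) (a : ℕ)
    (h : ∀ p q : ℤ, p + q ≤ d → U^[a] (V^[a] f) p q = 0) (p q : ℤ) (hpq : p + q ≤ d) :
    f p q = 0 :=
  V_iter_low hf d a (U_iter_low (hf.V_iter a) d a h) p q hpq

theorem UV_inj {N M : ℕ} {f g : ℤ → ℤ → ℤ} (hf : Box N f) (hg : Box M g) (a : ℕ)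
    (h : U^[a] (V^[a] f) = U^[a] (V^[a] g)) : f = g := by
  have hb : Box (max N M) (f - g) := (hf.mono (le_max_left _ _)).sub (hg.mono (le_max_right _ _))
  have h0 : U^[a] (V^[a] (f - g)) = 0 := by
    rw [V_iter_sub, U_iter_sub, h, sub_self]
  funext p q
  have := UV_low hb (p + q) a (fun p q _ => by rw [h0]; rfl) p q le_rfl
  simp only [Pi.sub_apply] at this
  omega

theorem finite_support {N : ℕ} {f : ℤ → ℤ → ℤ} (hf : Box N f) (s : ℤˣ) (i : ℤ) :
    (Function.support fun q : ℤ => ((s ^ q : ℤˣ) : ℤ) * f (i + q) q).Finite := by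
  refine (Set.finite_Icc (-(N : ℤ)) N).subset ?_
  intro q hq
  rw [Function.mem_support] at hq
  by_contra h
  apply hq
  rw [Set.mem_Icc, not_and_or] at h
  rw [hf (i + q) q (by omega), mul_zero]

theorem W_U {N : ℕ} {f : ℤ → ℤ → ℤ} (hf : Box N f) (s : ℤˣ) (i : ℤ) :
    W s (U f) i = W s f i + W s f (i - 1) := by
  unfold W
  rw [← finsum_add_distrib (finite_support hf s i) (finite_support hf s (i - 1))]
  refine finsum_congr fun q => ?_
  unfold U
  rw [mul_add, show i + q - 1 = i - 1 + q by ring]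

theorem W_V {N : ℕ} {f : ℤ → ℤ → ℤ} (hf : Box N f) (s : ℤˣ) (i : ℤ) :
    W s (V f) i = W s f i + s * W s f (i + 1) := by
  have h1 : (s : ℤ) * W s f (i + 1) = ∑ᶠ q : ℤ, ((s ^ q : ℤˣ) : ℤ) * f (i + q) (q - 1) := by
    unfold W
    rw [mul_finsum,
      ← finsum_comp_equiv (Equiv.addRight (1 : ℤ)) (f := fun q : ℤ =>
        ((s ^ q : ℤˣ) : ℤ) * f (i + q) (q - 1))]
    refine finsum_congr fun q => ?_
    simp only [Equiv.coe_addRight]
    rw [zpow_add_one, Units.val_mul, add_sub_cancel_right, show i + 1 + q = i + (q + 1) by ring]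
    ring
  rw [h1]
  unfold W
  rw [← finsum_add_distrib (finite_support hf s i)]
  · refine finsum_congr fun q => ?_
    unfold V
    rw [mul_add]
  · refine (Set.finite_Icc (-(N : ℤ) - 1) (N + 1)).subset ?_
    intro q hq
    rw [Function.mem_support] at hq
    by_contra h
    apply hq
    rw [Set.mem_Icc, not_and_or] at h
    rw [hf (i + q) (q - 1) (by omega), mul_zero]

theorem W_far {N : ℕ} {f : ℤ → ℤ → ℤ} (hf : Box N f) (s : ℤˣ) (i : ℤ) (hi : 2 * N < i ∨ i < -(2 * N)) :
    W s f i = 0 := by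
  unfold W
  rw [finsum_eq_zero_of_forall_eq_zero]
  intro q
  rw [hf (i + q) q (by omega), mul_zero]

theorem W_U_zero {N : ℕ} {f : ℤ → ℤ → ℤ} (hf : Box N f) (s : ℤˣ) (h : ∀ i, W s (U f) i = 0)
    (i : ℤ) : W s f i = 0 := by
  have key : ∀ k : ℕ, ∀ i : ℤ, i ≤ -(2 * N) - 1 + k → W s f i = 0 := by
    intro k
    induction k with
    | zero => intro i hi; exact W_far hf s i (by push_cast at hi; omega)
    | succ k ih =>
      intro i hi
      have h1 := h i
      rw [W_U hf, ih (i - 1) (by push_cast at hi; omega), add_zero] at h1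
      exact h1
  exact key (i + 2 * N + 1).toNat i (by omega)

theorem W_V_zero {N : ℕ} {f : ℤ → ℤ → ℤ} (hf : Box N f) (s : ℤˣ) (h : ∀ i, W s (V f) i = 0)
    (i : ℤ) : W s f i = 0 := by
  have key : ∀ k : ℕ, ∀ i : ℤ, 2 * N + 1 - k ≤ i → W s f i = 0 := by
    intro k
    induction k with
    | zero => intro i hi; exact W_far hf s i (by push_cast at hi; omega)
    | succ k ih =>
      intro i hi
      have h1 := h i
      rw [W_V hf, ih (i + 1) (by push_cast at hi; omega), mul_zero, add_zero] at h1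
      exact h1
  exact key (2 * N + 1 - i).toNat i (by omega)

theorem W_UV_zero {N : ℕ} {f : ℤ → ℤ → ℤ} (hf : Box N f) (s : ℤˣ) (a : ℕ)
    (h : ∀ i, W s (U^[a] (V^[a] f)) i = 0) (i : ℤ) : W s f i = 0 := by
  have h1 : ∀ b : ℕ, ∀ g : ℤ → ℤ → ℤ, (∃ M, Box M g) → (∀ i, W s (U^[b] g) i = 0) →
      ∀ i, W s g i = 0 := by
    intro b
    induction b with
    | zero => intro g _ h; exact h
    | succ b ih =>
      rintro g ⟨M, hM⟩ h
      refine ih g ⟨M, hM⟩ (W_U_zero (hM.U_iter b) s ?_)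
      rw [← Function.iterate_succ_apply' U]
      exact h
  have h2 : ∀ b : ℕ, ∀ g : ℤ → ℤ → ℤ, (∃ M, Box M g) → (∀ i, W s (V^[b] g) i = 0) →
      ∀ i, W s g i = 0 := by
    intro b
    induction b with
    | zero => intro g _ h; exact h
    | succ b ih =>
      rintro g ⟨M, hM⟩ h
      refine ih g ⟨M, hM⟩ (W_V_zero (hM.V_iter b) s ?_)
      rw [← Function.iterate_succ_apply' V]
      exact h
  exact h2 a f ⟨N, hf⟩ (h1 a _ ⟨_, hf.V_iter a⟩ h) i

/-- The relations between the differences of Hodge numbers in dimension `m`. -/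
structure Rel (m : ℤ) (f : ℤ → ℤ → ℤ) : Prop where
  box : ∃ N, Box N f
  col : ∀ i, W 1 f i = 0
  alt : ∀ i, W (-1) f i = 0
  swap : T f = f
  dual : D m m f = f

theorem Rel.descend {m : ℤ} {a : ℕ} {f g : ℤ → ℤ → ℤ} (hf : Rel m f) (hg : ∃ N, Box N g)
    (h : f = U^[a] (V^[a] g)) : Rel (m - a) g := by
  obtain ⟨N, hN⟩ := hg
  refine ⟨⟨N, hN⟩, W_UV_zero hN 1 a (by rw [← h]; exact hf.col),
    W_UV_zero hN (-1) a (by rw [← h]; exact hf.alt), ?_, ?_⟩
  · refine UV_inj hN.T hN a ?_
    have h1 : T (U^[a] (V^[a] g)) = V^[a] (U^[a] (T g)) := by rw [T_U_iter, T_V_iter]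
    have h2 : V^[a] (U^[a] (T g)) = U^[a] (V^[a] (T g)) :=
      ((comm_UV.iterate_iterate a a) (T g)).symm
    rw [← h2, ← h1, ← h, hf.swap]
  · refine UV_inj (hN.D _ _) hN a ?_
    rw [← D_V_iter, ← D_U_iter, ← h]
    have := hf.dual
    rwa [show m - a + a = m by ring]

/-- If the differences are zero in the degrees at most `m - 3`, they are zero. -/
theorem Rel.zero {m : ℤ} {f : ℤ → ℤ → ℤ} (hf : Rel m f)
    (h : ∀ p q : ℤ, p + q + 3 ≤ m → f p q = 0) (p q : ℤ) : f p q = 0 := by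
  have hd : ∀ p q : ℤ, f (m - q) (m - p) = f p q := by
    intro p q
    have h1 := congrFun (congrFun hf.dual q) p
    have h2 := congrFun (congrFun hf.swap p) q
    unfold D at h1
    unfold T at h2
    rw [h1, h2]
  have h' : ∀ p q : ℤ, m + 3 ≤ p + q → f p q = 0 := by
    intro p q hpq
    rw [← hd p q]
    exact h _ _ (by omega)
  have sgn : ∀ q : ℤ, (((-1 : ℤˣ) ^ q : ℤˣ) : ℤ) = 1 ∨ (((-1 : ℤˣ) ^ q : ℤˣ) : ℤ) = -1 := by
    intro q
    rcases Int.units_eq_one_or ((-1 : ℤˣ) ^ q) with h | h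
    · left; rw [h]; rfl
    · right; rw [h]; rfl
  rcases Int.even_or_odd (p + q - m) with hpar | hpar
  · obtain ⟨k, hk⟩ := hpar
    -- the middle of the column
    set a := p - k with ha
    set b := q - k with hb
    have hab : a + b = m := by omega
    have e1 : f (a - 1) (b - 1) = f (a + 1) (b + 1) := by
      rw [← hd (a - 1) (b - 1)]
      congr 1 <;> omega
    have hsum : ∀ s : ℤˣ, W s f (a - b) = ((s ^ (b - 1) : ℤˣ) : ℤ) * f (a - 1) (b - 1) +
        (((s ^ b : ℤˣ) : ℤ) * f a b + ((s ^ (b + 1) : ℤˣ) : ℤ) * f (a + 1) (b + 1)) := by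
      intro s
      unfold W
      rw [finsum_eq_sum_of_support_subset (s := {b - 1, b, b + 1})]
      · rw [Finset.sum_insert, Finset.sum_insert, Finset.sum_singleton,
          show a - b + (b - 1) = a - 1 by ring, show a - b + b = a by ring,
          show a - b + (b + 1) = a + 1 by ring]
        · simp
        · simp only [Finset.mem_insert, Finset.mem_singleton]; omega
      · intro r hr
        rw [Function.mem_support] at hr
        by_contra hr2
        apply hr
        simp only [Finset.coe_insert, Finset.coe_singleton, Set.mem_insert_iff,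
          Set.mem_singleton_iff, not_or] at hr2
        rcases (by omega : r ≤ b - 2 ∨ b + 2 ≤ r) with h1 | h1
        · rw [h _ _ (by omega), mul_zero]
        · rw [h' _ _ (by omega), mul_zero]
    have h1 := hsum 1
    have h2 := hsum (-1)
    rw [hf.col, one_zpow, one_zpow, one_zpow, e1] at h1
    rw [hf.alt, zpow_add_one, zpow_sub_one, e1] at h2
    have e2 : (((-1 : ℤˣ) ^ b * (-1 : ℤˣ)⁻¹ : ℤˣ) : ℤ) = -(((-1 : ℤˣ) ^ b : ℤˣ) : ℤ) := by simp
    have e3 : (((-1 : ℤˣ) ^ b * (-1 : ℤˣ) : ℤˣ) : ℤ) = -(((-1 : ℤˣ) ^ b : ℤˣ) : ℤ) := by simp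
    rw [e2, e3] at h2
    have x0 : f a b = 0 ∧ f (a + 1) (b + 1) = 0 := by
      rcases sgn b with hs | hs <;> rw [hs] at h2 <;> simp only [Units.val_one] at h1 <;>
        constructor <;> omega
    have x1 : f (a - 1) (b - 1) = 0 := by rw [e1]; exact x0.2
    have hp : p = a + k := by omega
    have hq : q = b + k := by omega
    rcases (by omega : k ≤ -2 ∨ k = -1 ∨ k = 0 ∨ k = 1 ∨ 2 ≤ k) with h3 | h3 | h3 | h3 | h3
    · exact h _ _ (by omega)
    · rw [hp, hq, h3]; exact x1
    · rw [hp, hq, h3, add_zero, add_zero]; exact x0.1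
    · rw [hp, hq, h3]; exact x0.2
    · exact h' _ _ (by omega)
  · obtain ⟨k, hk⟩ := hpar
    set a := p - k - 1 with ha
    set b := q - k - 1 with hb
    have hab : a + b + 1 = m := by omega
    have e1 : f a b = f (a + 1) (b + 1) := by
      rw [← hd a b]
      congr 1 <;> omega
    have hsum : W 1 f (a - b) = f a b + f (a + 1) (b + 1) := by
      unfold W
      rw [finsum_eq_sum_of_support_subset (s := {b, b + 1})]
      · rw [Finset.sum_insert, Finset.sum_singleton, show a - b + b = a by ring,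
          show a - b + (b + 1) = a + 1 by ring]
        · simp
        · simp only [Finset.mem_singleton]; omega
      · intro r hr
        rw [Function.mem_support] at hr
        by_contra hr2
        apply hr
        simp only [Finset.coe_insert, Finset.coe_singleton, Set.mem_insert_iff,
          Set.mem_singleton_iff, not_or] at hr2
        rcases (by omega : r ≤ b - 1 ∨ b + 2 ≤ r) with h1 | h1
        · rw [h _ _ (by omega), mul_zero]
        · rw [h' _ _ (by omega), mul_zero]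
    rw [hf.col] at hsum
    have x0 : f a b = 0 := by omega
    have x1 : f (a + 1) (b + 1) = 0 := by omega
    have hp : p = a + k + 1 := by omega
    have hq : q = b + k + 1 := by omega
    rcases (by omega : k ≤ -2 ∨ k = -1 ∨ k = 0 ∨ 1 ≤ k) with h3 | h3 | h3 | h3
    · exact h _ _ (by omega)
    · rw [hp, hq, h3, show a + -1 + 1 = a by ring, show b + -1 + 1 = b by ring]; exact x0
    · rw [hp, hq, h3, add_zero, add_zero]; exact x1
    · exact h' _ _ (by omega)

end Pool.Agent.Helper30.DI
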