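import Pool.Graph.R_seed8.W539.DI.Cor
import Pool.Agent.Helper30.DI.Num

/-!
# The relations between the Hodge numbers of derived equivalent varieties
-/

namespace Pool.Agent.Helper30.DI

open Pool.Agent.W539.DI

variable {n : ℕ}

/-- The differences of the Hodge numbers. -/
noncomputable def diff (X Y : KRing n) : ℤ → ℤ → ℤ := fun p q => (X.h p q : ℤ) - Y.h p q

theorem h_dual (X : KRing n) (p q : ℤ) : X.h (n - q) (n - p) = X.h p q := by
  rcases le_or_gt (p + q) n with h | h
  · obtain ⟨k, hk⟩ : ∃ k : ℕ, p + q + k = n := ⟨(n - p - q).toNat, by omega⟩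
    rw [X.h_symm k hk]
    congr 1 <;> omega
  · obtain ⟨k, hk⟩ : ∃ k : ℕ, (n - q) + (n - p) + k = n := ⟨(p + q - n).toNat, by omega⟩
    rw [X.h_symm k hk]
    congr 1 <;> omega

theorem box_diff (X Y : KRing n) : Box n (diff X Y) := by
  intro p q hpq
  unfold diff
  rw [X.h_zero (by omega), Y.h_zero (by omega)]
  simp

theorem diff_swap (X Y : KRing n) (p q : ℤ) : diff X Y q p = diff X Y p q := by
  unfold diff
  rw [X.h_swap, Y.h_swap]

theorem diff_dual (X Y : KRing n) (p q : ℤ) : diff X Y (n - q) (n - p) = diff X Y p q := by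
  unfold diff
  rw [h_dual, h_dual]

theorem diff_col {X Y : KRing n} (Φ : FM X Y) (i : ℤ) : W 1 (diff X Y) i = 0 := by
  have h1 := Φ.total_all i 0 (Finset.Icc 0 (n : ℤ)) (by
    intro k hk
    rw [Finset.mem_Icc] at hk
    omega)
  unfold W
  rw [finsum_eq_sum_of_support_subset (s := Finset.Icc 0 (n : ℤ))]
  · have h2 : ∑ k ∈ Finset.Icc 0 (n : ℤ), (X.h (i + k) (0 + k) : ℤ) =
        ∑ k ∈ Finset.Icc 0 (n : ℤ), (Y.h (i + k) (0 + k) : ℤ) := by exact_mod_cast h1
    simp only [one_zpow, Units.val_one, one_mul, diff, Finset.sum_sub_distrib]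
    simp only [zero_add] at h2
    rw [h2, sub_self]
  · intro q hq
    rw [Function.mem_support] at hq
    by_contra h
    apply hq
    rw [Finset.coe_Icc, Set.mem_Icc] at h
    rw [diff, X.h_zero (by omega), Y.h_zero (by omega)]
    simp

theorem A_sum (X : KRing n) (r : ℕ) (p q : ℤ) :
    X.A r p q = ∑ j ∈ Finset.range r, (-1) ^ j * (X.h (p - j) (q - j) : ℤ) := by
  induction r generalizing p q with
  | zero => simp [KRing.A]
  | succ r ih =>
    rw [KRing.A, ih, Finset.sum_range_succ']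
    have h1 : ∀ j : ℕ, (-1 : ℤ) ^ (j + 1) * (X.h (p - ((j + 1 : ℕ) : ℤ)) (q - ((j + 1 : ℕ) : ℤ)) : ℤ) =
        -((-1) ^ j * (X.h (p - 1 - j) (q - 1 - j) : ℤ)) := by
      intro j
      rw [show p - ((j + 1 : ℕ) : ℤ) = p - 1 - j by push_cast; ring,
        show q - ((j + 1 : ℕ) : ℤ) = q - 1 - j by push_cast; ring]
      ring
    rw [Finset.sum_congr rfl fun j _ => h1 j, Finset.sum_neg_distrib]
    simp
    ring

/-- A symmetric sum. -/
theorem sum_even (g : ℤ → ℤ) (hg : ∀ j, g (-j) = g j) (M : ℕ) :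
    ∑ j ∈ Finset.Icc (-(M : ℤ)) M, g j = g 0 + 2 * ∑ j ∈ Finset.range M, g (j + 1) := by
  induction M with
  | zero => simp
  | succ M ih =>
    have h1 : Finset.Icc (-((M + 1 : ℕ) : ℤ)) ((M + 1 : ℕ) : ℤ) =
        insert ((M : ℤ) + 1) (insert (-((M : ℤ) + 1)) (Finset.Icc (-(M : ℤ)) M)) := by
      ext j
      simp only [Finset.mem_insert, Finset.mem_Icc]
      push_cast
      omega
    rw [h1, Finset.sum_insert, Finset.sum_insert, ih, hg, Finset.sum_range_succ]
    · ring
    · simp only [Finset.mem_Icc]; omega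
    · simp only [Finset.mem_insert, Finset.mem_Icc]; omega

theorem diff_alt {X Y : KRing n} (Φ : FM X Y) (i : ℤ) : W (-1) (diff X Y) i = 0 := by
  rcases Int.even_or_odd (n + i) with hi | hi
  · obtain ⟨a, ha⟩ := hi
    set b := a - i with hb
    have hab : a + b = n := by omega
    obtain ⟨r, hr1, hr2⟩ : ∃ r : ℕ, a < r ∧ (n : ℤ) + a.natAbs + b.natAbs < r :=
      ⟨n + a.natAbs + b.natAbs + 1, by omega, by push_cast; omega⟩
    have h1 := Φ.main hab (r + 1) (by push_cast; omega)
    have h2 := Φ.total hab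
    have h3 : (X.A (r + 1) a b - Y.A (r + 1) a b) * 2 = diff X Y a b := by
      unfold diff
      have h4 : (2 * X.f a b + X.h a b : ℤ) = 2 * Y.f a b + Y.h a b := by exact_mod_cast h2
      linarith
    rw [A_sum, A_sum, ← Finset.sum_sub_distrib] at h3
    set g : ℤ → ℤ := fun j => (((-1 : ℤˣ) ^ j : ℤˣ) : ℤ) * diff X Y (a - j) (b - j) with hg
    have hgn : ∀ j : ℕ, (-1) ^ j * (X.h (a - j) (b - j) : ℤ) - (-1) ^ j * (Y.h (a - j) (b - j) : ℤ)
        = g j := by
      intro j
      simp only [hg, diff, zpow_natCast]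
      push_cast
      ring
    rw [Finset.sum_congr rfl fun j _ => hgn j, Finset.sum_range_succ'] at h3
    have hg0 : g 0 = diff X Y a b := by simp [hg]
    have heven : ∀ j, g (-j) = g j := by
      intro j
      simp only [hg]
      rw [← diff_dual X Y (a - j) (b - j), zpow_neg]
      congr 1
      · rcases Int.units_eq_one_or ((-1 : ℤˣ) ^ j) with h | h <;> rw [h] <;> simp
      · congr 1 <;> omega
    have hfin : W (-1) (diff X Y) i = (((-1 : ℤˣ) ^ b : ℤˣ) : ℤ) * ∑ᶠ j : ℤ, g j := by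
      unfold W
      rw [← finsum_comp_equiv (Equiv.subLeft b) (f := fun q : ℤ =>
        (((-1 : ℤˣ) ^ q : ℤˣ) : ℤ) * diff X Y (i + q) q), mul_finsum]
      refine finsum_congr fun j => ?_
      simp only [Equiv.subLeft_apply, hg]
      rw [show i + (b - j) = a - j by omega, zpow_sub, Units.val_mul]
      rcases Int.units_eq_one_or ((-1 : ℤˣ) ^ j) with h | h <;> rw [h] <;> simp
    have hsup : ∑ᶠ j : ℤ, g j = ∑ j ∈ Finset.Icc (-(r : ℤ)) r, g j := by
      refine finsum_eq_sum_of_support_subset _ ?_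
      intro j hj
      rw [Function.mem_support] at hj
      by_contra h
      apply hj
      rw [Finset.coe_Icc, Set.mem_Icc] at h
      simp only [hg, diff]
      rw [X.h_zero (by omega), Y.h_zero (by omega)]
      simp
    rw [hfin, hsup, sum_even g heven]
    push_cast at h3
    rw [hg0] at h3 ⊢
    have : diff X Y a b + 2 * ∑ j ∈ Finset.range r, g (j + 1) = 0 := by linarith
    rw [this, mul_zero]
  · have h1 : W (-1) (diff X Y) i = -W (-1) (diff X Y) i := by
      conv_lhs => unfold W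
      rw [← finsum_comp_equiv (Equiv.subLeft ((n : ℤ) - i)) (f := fun q : ℤ =>
        (((-1 : ℤˣ) ^ q : ℤˣ) : ℤ) * diff X Y (i + q) q)]
      unfold W
      rw [← finsum_neg_distrib]
      refine finsum_congr fun q => ?_
      simp only [Equiv.subLeft_apply]
      rw [← diff_dual X Y (i + q) q, zpow_sub, Units.val_mul]
      have h2 : ((-1 : ℤˣ) ^ ((n : ℤ) - i)) = -1 := by
        refine Odd.neg_one_zpow ?_
        obtain ⟨k, hk⟩ := hi
        exact ⟨k - i, by omega⟩
      rw [h2, show i + ((n : ℤ) - i - q) = n - q by ring, show (n : ℤ) - i - q = n - (i + q) by ring]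
      rcases Int.units_eq_one_or ((-1 : ℤˣ) ^ q) with h | h <;> rw [h] <;> simp
    omega

theorem rel_diff {X Y : KRing n} (Φ : FM X Y) : Rel n (diff X Y) := by
  refine ⟨⟨n, box_diff X Y⟩, diff_col Φ, diff_alt Φ, ?_, ?_⟩
  · funext p q
    exact diff_swap X Y p q
  · funext p q
    unfold D
    rw [← diff_swap, diff_dual]

end Pool.Agent.Helper30.DI
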