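import Pool.Agent.Helper30.DI.Five

/-!
# The Hodge polynomial of a variety with an abelian variety of automorphisms
-/

namespace Pool.Agent.Helper30.DI

open Finset Pool.Agent.W539.DI

theorem U_iter_ge {f : ℤ → ℤ → ℤ} (hf : ∀ p q, 0 ≤ f p q) (a : ℕ) :
    (∀ p q, 0 ≤ U^[a] f p q) ∧ ∀ p q : ℤ, f p q ≤ U^[a] f (p + a) q := by
  induction a with
  | zero => exact ⟨hf, fun p q => by simp⟩
  | succ a ih =>
    obtain ⟨ih1, ih2⟩ := ih
    refine ⟨?_, ?_⟩
    · intro p q
      rw [Function.iterate_succ_apply', U_apply]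
      exact add_nonneg (ih1 _ _) (ih1 _ _)
    · intro p q
      rw [Function.iterate_succ_apply', U_apply,
        show p + ((a + 1 : ℕ) : ℤ) - 1 = p + a by push_cast; ring]
      have h1 := ih2 p q
      have h2 := ih1 (p + ((a + 1 : ℕ) : ℤ)) q
      omega

theorem V_iter_ge {f : ℤ → ℤ → ℤ} (hf : ∀ p q, 0 ≤ f p q) (a : ℕ) :
    (∀ p q, 0 ≤ V^[a] f p q) ∧ ∀ p q : ℤ, f p q ≤ V^[a] f p (q + a) := by
  induction a with
  | zero => exact ⟨hf, fun p q => by simp⟩
  | succ a ih =>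
    obtain ⟨ih1, ih2⟩ := ih
    refine ⟨?_, ?_⟩
    · intro p q
      rw [Function.iterate_succ_apply', V_apply]
      exact add_nonneg (ih1 _ _) (ih1 _ _)
    · intro p q
      rw [Function.iterate_succ_apply', V_apply,
        show q + ((a + 1 : ℕ) : ℤ) - 1 = q + a by push_cast; ring]
      have h1 := ih2 p q
      have h2 := ih1 p (q + ((a + 1 : ℕ) : ℤ))
      omega

variable {n : ℕ}

/-- The Hodge polynomial is `((1 + u) (1 + v))^a ∑ k^{p,q} u^p v^q`, the sum over `p, q ≤ n - a`, with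
`0 ≤ k^{p,q} ≤ h^{p,q}`. -/
def Factors (X : KRing n) (a : ℕ) : Prop :=
  ∃ k : ℤ → ℤ → ℤ, (∀ p q : ℤ, 0 ≤ k p q ∧ k p q ≤ X.h p q) ∧
    ∀ u v : ℤ, hodgePoly X u v = ((1 + u) * (1 + v)) ^ a * poly (n + 1 - a) (n + 1 - a) k u v

/-- All Hodge numbers agree. -/
def SameHodge (X Y : KRing n) : Prop := ∀ p q : ℤ, X.h p q = Y.h p q

/-- The Hodge numbers of the degrees at most `d` agree. -/
def SameHodgeUpTo (d : ℤ) (X Y : KRing n) : Prop := ∀ p q : ℤ, p + q ≤ d → X.h p q = Y.h p q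

/-- The polynomial `(1 - u v) (1 - u² v²) (A (u² + v²) + B u v)`. -/
def quad (A B u v : ℤ) : ℤ := (1 - u * v) * (1 - u ^ 2 * v ^ 2) * (A * (u ^ 2 + v ^ 2) + B * (u * v))

/-- The Hodge polynomials differ by `((1 + u) (1 + v))^a (1 - u v) (1 - u² v²) (A (u² + v²) + B u v)`,
where `A` and `B` are the differences of the numbers `h^{2,0}` and `h^{1,1}`. -/
def DifferByQuad (a : ℕ) (X Y : KRing n) : Prop :=
  ∀ u v : ℤ, hodgePoly X u v = hodgePoly Y u v +
    ((1 + u) * (1 + v)) ^ a * quad ((X.h 2 0 : ℤ) - Y.h 2 0) ((X.h 1 1 : ℤ) - Y.h 1 1) u v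

/-- **The factorisation of the Hodge polynomial.** -/
theorem hodgePoly_factor {X : KRing n} {a : ℕ} (S : AbelianSymmetry X a) : Factors X a := by
  obtain ⟨k, hk, hk'⟩ := S.factor
  refine ⟨k, hk, fun u v => ?_⟩
  have hneg : ∀ p q : ℤ, (p < 0 ∨ q < 0) → k p q = 0 := by
    intro p q h
    have h1 := hk p q
    rw [X.h_neg h] at h1
    push_cast at h1
    omega
  have hle : ∀ p q : ℤ, k p q ≤ X.h (p + a) (q + a) := by
    intro p q
    have h1 := congrFun (congrFun hk' (p + a)) (q + a)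
    rw [h1]
    have h2 := (U_iter_ge (f := V^[a] k) (V_iter_ge (fun p q => (hk p q).1) a).1 a).2 p (q + a)
    have h3 := (V_iter_ge (f := k) (fun p q => (hk p q).1) a).2 p q
    omega
  have hlarge : ∀ p q : ℤ, ((n : ℤ) < p + a ∨ (n : ℤ) < q + a) → k p q = 0 := by
    intro p q h
    have h1 := hle p q
    have h2 := (hk p q).1
    rw [X.h_zero (by omega)] at h1
    push_cast at h1
    omega
  have han : a ≤ n := by
    by_contra h
    have h1 : k 0 0 = 0 := hlarge 0 0 (by omega)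
    have h2 := congrFun (congrFun hk' 0) 0
    rw [UV_lowest 0 (fun p q hpq => hneg p q (by omega)) a 0 0 le_rfl, h1, X.h00] at h2
    exact absurd h2 (by norm_num)
  have h3 := poly_UV (N := n + 1 - a) (M := n + 1 - a) (f := k)
    (fun p q h => by
      rcases h with h | h
      · exact hneg p q (Or.inl h)
      · exact hlarge p q (Or.inl (by omega)))
    (fun p q h => by
      rcases h with h | h
      · exact hneg p q (Or.inr h)
      · exact hlarge p q (Or.inr (by omega))) a u v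
  rw [show n + 1 - a + a = n + 1 by omega, ← hk'] at h3
  have h4 : hodgePoly X u v = poly (n + 1) (n + 1) (fun p q => (X.h p q : ℤ)) u v := rfl
  rw [h4, h3]

end Pool.Agent.Helper30.DI
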