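import Pool.Agent.Helper30.DI.Sym

/-!
# The case `n = a + 5`
-/

namespace Pool.Agent.Helper30.DI

open Finset Pool.Agent.W539.DI

theorem U_apply (f : ℤ → ℤ → ℤ) (p q : ℤ) : U f p q = f p q + f (p - 1) q := rfl

theorem V_apply (f : ℤ → ℤ → ℤ) (p q : ℤ) : V f p q = f p q + f p (q - 1) := rfl

/-- The polynomial with the coefficients `f p q`, `p < N`, `q < M`. -/
def poly (N M : ℕ) (f : ℤ → ℤ → ℤ) (u v : ℤ) : ℤ :=
  ∑ p ∈ range N, ∑ q ∈ range M, f p q * (u ^ p * v ^ q)

theorem poly_U {N : ℕ} (M : ℕ) {f : ℤ → ℤ → ℤ} (h : ∀ p q : ℤ, (p < 0 ∨ (N : ℤ) ≤ p) → f p q = 0)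
    (u v : ℤ) : poly (N + 1) M (U f) u v = (1 + u) * poly N M f u v := by
  have h1 : poly (N + 1) M f u v = poly N M f u v := by
    unfold poly
    rw [sum_range_succ]
    have : ∑ q ∈ range M, f (N : ℤ) q * (u ^ N * v ^ q) = 0 :=
      sum_eq_zero fun q _ => by rw [h _ _ (Or.inr le_rfl), zero_mul]
    rw [this, add_zero]
  have h2 : poly (N + 1) M (fun p q => f (p - 1) q) u v = u * poly N M f u v := by
    unfold poly
    rw [sum_range_succ']
    have : ∑ q ∈ range M, f (((0 : ℕ) : ℤ) - 1) q * (u ^ 0 * v ^ q) = 0 :=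
      sum_eq_zero fun q _ => by rw [h _ _ (Or.inl (by norm_num)), zero_mul]
    rw [this, add_zero, mul_sum]
    refine sum_congr rfl fun p _ => ?_
    rw [mul_sum]
    refine sum_congr rfl fun q _ => ?_
    show f (((p + 1 : ℕ) : ℤ) - 1) q * (u ^ (p + 1) * v ^ q) = u * (f p q * (u ^ p * v ^ q))
    rw [show ((p + 1 : ℕ) : ℤ) - 1 = p by push_cast; ring]
    ring
  have h3 : poly (N + 1) M (U f) u v = poly (N + 1) M f u v +
      poly (N + 1) M (fun p q => f (p - 1) q) u v := by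
    unfold poly
    rw [← sum_add_distrib]
    refine sum_congr rfl fun p _ => ?_
    rw [← sum_add_distrib]
    refine sum_congr rfl fun q _ => ?_
    unfold U
    ring
  rw [h3, h1, h2]
  ring

theorem poly_V (N : ℕ) {M : ℕ} {f : ℤ → ℤ → ℤ} (h : ∀ p q : ℤ, (q < 0 ∨ (M : ℤ) ≤ q) → f p q = 0)
    (u v : ℤ) : poly N (M + 1) (V f) u v = (1 + v) * poly N M f u v := by
  have hs : ∀ (N M : ℕ) (f : ℤ → ℤ → ℤ), poly N M f u v = poly M N (T f) v u := by
    intro N M f
    unfold poly T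
    rw [sum_comm]
    refine sum_congr rfl fun p _ => sum_congr rfl fun q _ => by ring
  rw [hs, hs N, T_V, poly_U N (f := T f) fun p q hp => h q p hp]

theorem poly_UV {N M : ℕ} {f : ℤ → ℤ → ℤ} (hf : ∀ p q : ℤ, (p < 0 ∨ (N : ℤ) ≤ p) → f p q = 0)
    (hf' : ∀ p q : ℤ, (q < 0 ∨ (M : ℤ) ≤ q) → f p q = 0) (a : ℕ) (u v : ℤ) :
    poly (N + a) (M + a) (U^[a] (V^[a] f)) u v = ((1 + u) * (1 + v)) ^ a * poly N M f u v := by
  have h1 : ∀ b : ℕ, (∀ p q : ℤ, (q < 0 ∨ ((M + b : ℕ) : ℤ) ≤ q) → V^[b] f p q = 0) ∧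
      (∀ p q : ℤ, (p < 0 ∨ (N : ℤ) ≤ p) → V^[b] f p q = 0) ∧
      poly N (M + b) (V^[b] f) u v = (1 + v) ^ b * poly N M f u v := by
    intro b
    induction b with
    | zero => exact ⟨by simpa using hf', by simpa using hf, by simp⟩
    | succ b ih =>
      obtain ⟨ih1, ih2, ih3⟩ := ih
      refine ⟨?_, ?_, ?_⟩
      · intro p q hq
        rw [Function.iterate_succ_apply', V_apply]
        push_cast at hq
        rw [ih1 _ _ (by push_cast; omega), ih1 _ _ (by push_cast; omega), add_zero]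
      · intro p q hp
        rw [Function.iterate_succ_apply', V_apply]
        rw [ih2 _ _ hp, ih2 _ _ hp, add_zero]
      · rw [Function.iterate_succ_apply', ← add_assoc, poly_V N ih1, ih3]
        ring
  have h2 : ∀ b : ℕ, (∀ p q : ℤ, (p < 0 ∨ ((N + b : ℕ) : ℤ) ≤ p) → U^[b] (V^[a] f) p q = 0) ∧
      poly (N + b) (M + a) (U^[b] (V^[a] f)) u v =
        (1 + u) ^ b * poly N (M + a) (V^[a] f) u v := by
    intro b
    induction b with
    | zero => exact ⟨by simpa using (h1 a).2.1, by simp⟩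
    | succ b ih =>
      obtain ⟨ih1, ih3⟩ := ih
      refine ⟨?_, ?_⟩
      · intro p q hq
        rw [Function.iterate_succ_apply', U_apply]
        push_cast at hq
        rw [ih1 _ _ (by push_cast; omega), ih1 _ _ (by push_cast; omega), add_zero]
      · rw [Function.iterate_succ_apply', ← add_assoc, poly_U _ ih1, ih3]
        ring
  rw [(h2 a).2, (h1 a).2.2, mul_pow]
  ring

/-- The value in the lowest degree is not changed. -/
theorem UV_lowest {f : ℤ → ℤ → ℤ} (d : ℤ) (h : ∀ p q : ℤ, p + q < d → f p q = 0) (a : ℕ) (p q : ℤ)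
    (hpq : p + q ≤ d) : U^[a] (V^[a] f) p q = f p q := by
  have h1 : ∀ b : ℕ, (∀ p q : ℤ, p + q ≤ d → V^[b] f p q = f p q) := by
    intro b
    induction b with
    | zero => intro p q _; rfl
    | succ b ih =>
      intro p q hpq
      rw [Function.iterate_succ_apply', V_apply]
      rw [ih p q hpq, ih p (q - 1) (by omega), h p (q - 1) (by omega), add_zero]
  have h2 : ∀ b : ℕ, (∀ p q : ℤ, p + q ≤ d → U^[b] (V^[a] f) p q = f p q) := by
    intro b
    induction b with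
    | zero => intro p q hpq; exact h1 a p q hpq
    | succ b ih =>
      intro p q hpq
      rw [Function.iterate_succ_apply', U_apply]
      rw [ih p q hpq, ih (p - 1) q (by omega), h (p - 1) q (by omega), add_zero]
  exact h2 a p q hpq

theorem W_eq {m : ℕ} {f : ℤ → ℤ → ℤ} (hf : ∀ p q : ℤ, (q < 0 ∨ (m : ℤ) < q) → f p q = 0)
    (s : ℤˣ) (i : ℤ) : W s f i = ∑ q ∈ range (m + 1), ((s : ℤ) ^ q) * f (i + q) q := by
  unfold W
  rw [finsum_eq_sum_of_support_subset (s := (range (m + 1)).map Nat.castEmbedding)]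
  · rw [sum_map]
    refine sum_congr rfl fun q _ => ?_
    simp
  · intro q hq
    rw [Function.mem_support] at hq
    by_contra h
    apply hq
    rw [hf _ _ ?_, mul_zero]
    by_contra h2
    apply h
    rw [coe_map, Set.mem_image]
    exact ⟨q.toNat, by rw [mem_coe, mem_range]; omega, by
      rw [Nat.castEmbedding_apply]; omega⟩

theorem five_poly {f : ℤ → ℤ → ℤ} (hr : Rel 5 f)
    (hf : ∀ p q : ℤ, (p < 0 ∨ q < 0 ∨ 5 < p ∨ 5 < q) → f p q = 0)
    (h00 : f 0 0 = 0) (h10 : f 1 0 = 0) (u v : ℤ) :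
    poly 6 6 f u v = (1 - u * v) * (1 - u ^ 2 * v ^ 2) *
      (f 2 0 * (u ^ 2 + v ^ 2) + f 1 1 * (u * v)) := by
  have hs : ∀ p q : ℤ, f q p = f p q := fun p q => congrFun (congrFun hr.swap p) q
  have hd : ∀ p q : ℤ, f (5 - p) (5 - q) = f p q := fun p q => congrFun (congrFun hr.dual p) q
  have hw := W_eq (m := 5) (f := f) (fun p q h => hf p q (by push_cast at h; omega))
  have c0 := hr.col 0
  have c1 := hr.col 1
  have c2 := hr.col 2
  have c3 := hr.col 3
  have c4 := hr.col 4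
  have c5 := hr.col 5
  have a1 := hr.alt 1
  have a3 := hr.alt 3
  rw [hw] at c0 c1 c2 c3 c4 c5 a1 a3
  simp only [sum_range_succ, range_zero, sum_empty, Units.val_one, one_pow, one_mul] at c0 c1 c2 c3 c4 c5
  simp only [sum_range_succ, range_zero, sum_empty, Units.val_neg, Units.val_one] at a1 a3
  norm_num at c0 c1 c2 c3 c4 c5 a1 a3
  have z61 : ∀ q, f 6 q = 0 := fun q => hf 6 q (by norm_num)
  have z71 : ∀ q, f 7 q = 0 := fun q => hf 7 q (by norm_num)
  have z81 : ∀ q, f 8 q = 0 := fun q => hf 8 q (by norm_num)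
  have z91 : ∀ q, f 9 q = 0 := fun q => hf 9 q (by norm_num)
  have z101 : ∀ q, f 10 q = 0 := fun q => hf 10 q (by norm_num)
  rw [z61] at c1 a1
  rw [z61, z71] at c2
  rw [z61, z71, z81] at c3 a3
  rw [z61, z71, z81, z91] at c4
  rw [z61, z71, z81, z91, z101] at c5
  have d55 := hd 0 0
  have d44 := hd 1 1
  have d33 := hd 2 2
  have d54 := hd 0 1
  have d43 := hd 1 2
  have d53 := hd 0 2
  have d42 := hd 1 3
  have d52 := hd 0 3
  have d51 := hd 0 4
  norm_num at d55 d44 d33 d54 d43 d53 d42 d52 d51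
  have s1 := hs 1 0
  have s2 := hs 2 0
  have s3 := hs 3 0
  have s4 := hs 4 0
  have s5 := hs 5 0
  have s6 := hs 2 1
  have s7 := hs 3 1
  have s8 := hs 4 1
  have s9 := hs 5 1
  have s10 := hs 3 2
  have s11 := hs 4 2
  have s12 := hs 5 2
  have s13 := hs 4 3
  have s14 := hs 5 3
  have s15 := hs 5 4
  have k22 : f 2 2 = - f 1 1 := by omega
  have k33 : f 3 3 = - f 1 1 := by omega
  have k44 : f 4 4 = f 1 1 := by omega
  have k55 : f 5 5 = 0 := by omega
  have k01 : f 0 1 = 0 := by omega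
  have k21 : f 2 1 = 0 := by omega
  have k12 : f 1 2 = 0 := by omega
  have k32 : f 3 2 = 0 := by omega
  have k23 : f 2 3 = 0 := by omega
  have k43 : f 4 3 = 0 := by omega
  have k34 : f 3 4 = 0 := by omega
  have k54 : f 5 4 = 0 := by omega
  have k45 : f 4 5 = 0 := by omega
  have k31 : f 3 1 = - f 2 0 := by omega
  have k13 : f 1 3 = - f 2 0 := by omega
  have k42 : f 4 2 = - f 2 0 := by omega
  have k24 : f 2 4 = - f 2 0 := by omega
  have k53 : f 5 3 = f 2 0 := by omega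
  have k35 : f 3 5 = f 2 0 := by omega
  have k02 : f 0 2 = f 2 0 := by omega
  have k30 : f 3 0 = 0 := by omega
  have k03 : f 0 3 = 0 := by omega
  have k41 : f 4 1 = 0 := by omega
  have k14 : f 1 4 = 0 := by omega
  have k52 : f 5 2 = 0 := by omega
  have k25 : f 2 5 = 0 := by omega
  have k40 : f 4 0 = 0 := by omega
  have k04 : f 0 4 = 0 := by omega
  have k51 : f 5 1 = 0 := by omega
  have k15 : f 1 5 = 0 := by omega
  have k50 : f 5 0 = 0 := by omega
  have k05 : f 0 5 = 0 := by omega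
  unfold poly
  simp only [sum_range_succ, range_zero, sum_empty, Nat.cast_zero, Nat.cast_one, Nat.cast_ofNat]
  rw [h00, h10, k22, k33, k44, k55, k01, k21, k12, k32, k23, k43, k34, k54, k45, k31, k13, k42, k24,
    k53, k35, k02, k30, k03, k41, k14, k52, k25, k40, k04, k51, k15, k50, k05]
  ring

variable {n : ℕ}

/-- The Hodge polynomial `∑ h^{p,q} u^p v^q`. -/
noncomputable def hodgePoly (X : KRing n) (u v : ℤ) : ℤ :=
  ∑ p ∈ range (n + 1), ∑ q ∈ range (n + 1), (X.h p q : ℤ) * (u ^ p * v ^ q)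

theorem poly_diff (X Y : KRing n) (u v : ℤ) :
    hodgePoly X u v - hodgePoly Y u v = poly (n + 1) (n + 1) (diff X Y) u v := by
  unfold hodgePoly poly diff
  rw [← sum_sub_distrib]
  refine sum_congr rfl fun p _ => ?_
  rw [← sum_sub_distrib]
  refine sum_congr rfl fun q _ => by ring

/-- **The case `n = a + 5`.** -/
theorem codim_five {a : ℕ} (hn : n = a + 5) {X Y : KRing n} (Φ : FM X Y) (S : AbelianSymmetry X a)
    (S' : AbelianSymmetry Y a) (h10 : X.h 1 0 = Y.h 1 0) (u v : ℤ) :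
    hodgePoly X u v = hodgePoly Y u v + ((1 + u) * (1 + v)) ^ a *
      ((1 - u * v) * (1 - u ^ 2 * v ^ 2) * (((X.h 2 0 : ℤ) - Y.h 2 0) * (u ^ 2 + v ^ 2) +
        ((X.h 1 1 : ℤ) - Y.h 1 1) * (u * v))) := by
  obtain ⟨g, hg, hd⟩ := diff_factor S S'
  have hbox : Box n g := fun p q hpq => hg p q (by omega)
  have hrel := (rel_diff Φ).descend ⟨n, hbox⟩ hd
  rw [show (n : ℤ) - a = 5 by rw [hn]; push_cast; ring] at hrel
  have hlow : ∀ p q : ℤ, p + q ≤ 1 → g p q = 0 := by
    refine UV_low hbox _ a ?_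
    intro p q hpq
    rw [← hd]
    unfold diff
    by_cases h1 : p < 0 ∨ q < 0
    · rw [X.h_neg h1, Y.h_neg h1, sub_self]
    · have h2 : (p = 0 ∧ q = 0) ∨ (p = 1 ∧ q = 0) ∨ (p = 0 ∧ q = 1) := by omega
      rcases h2 with ⟨rfl, rfl⟩ | ⟨rfl, rfl⟩ | ⟨rfl, rfl⟩
      · rw [X.h00, Y.h00, sub_self]
      · rw [h10, sub_self]
      · rw [X.h_swap, Y.h_swap, h10, sub_self]
  have hsup : ∀ p q : ℤ, (p < 0 ∨ q < 0 ∨ 5 < p ∨ 5 < q) → g p q = 0 := by
    intro p q hpq
    by_cases h1 : p < 0 ∨ q < 0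
    · exact hg p q (by omega)
    · have h2 := congrFun (congrFun hrel.dual p) q
      unfold D at h2
      rw [← h2]
      exact hg _ _ (by omega)
  have h2 : ∀ p q : ℤ, p + q ≤ 2 → diff X Y p q = g p q := by
    intro p q hpq
    rw [hd]
    exact UV_lowest 2 (fun p q h => hlow p q (by omega)) a p q hpq
  have e20 : g 2 0 = (X.h 2 0 : ℤ) - Y.h 2 0 := (h2 2 0 (by norm_num)).symm
  have e11 : g 1 1 = (X.h 1 1 : ℤ) - Y.h 1 1 := (h2 1 1 (by norm_num)).symm
  have h3 := five_poly hrel hsup (hlow 0 0 (by norm_num)) (hlow 1 0 (by norm_num)) u v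
  have h4 := poly_UV (N := 6) (M := 6) (f := g) (fun p q h => hsup p q (by push_cast at h; omega))
    (fun p q h => hsup p q (by push_cast at h; omega)) a u v
  rw [← hd, h3, e20, e11] at h4
  have h5 := poly_diff X Y u v
  have h6 : n + 1 = 6 + a := by omega
  rw [h6, h4] at h5
  linarith

end Pool.Agent.Helper30.DI
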