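import Pool.Agent.Helper30.DI.FMRel

/-!
# Varieties with an action of an abelian variety
-/

namespace Pool.Agent.Helper30.DI

open Module Pool.Agent.W539.DI
open scoped ComplexConjugate

section Clifford

variable {E : Type*} [AddCommGroup E] [Module ℂ E] [FiniteDimensional ℂ E]

/-- The dimensions of the graded parts of a subspace. -/
noncomputable def dims (H : ℤ × ℤ → Submodule ℂ E) (K : Submodule ℂ E) : ℤ → ℤ → ℤ :=
  fun p q => finrank ℂ (K ⊓ H (p, q) : Submodule ℂ E)

theorem finrank_split (M : Submodule ℂ E) (f : E →ₗ[ℂ] E) :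
    finrank ℂ M = finrank ℂ (M ⊓ LinearMap.ker f : Submodule ℂ E) + finrank ℂ (M.map f) := by
  have h := LinearMap.finrank_range_add_finrank_ker (f.domRestrict M)
  rw [LinearMap.range_domRestrict, LinearMap.ker_domRestrict] at h
  have h2 : finrank ℂ (Submodule.comap M.subtype (LinearMap.ker f)) =
      finrank ℂ (M ⊓ LinearMap.ker f : Submodule ℂ E) := by
    rw [← Submodule.finrank_map_subtype_eq M, Submodule.map_comap_subtype]
  rw [← h, ← h2]
  exact add_comm _ _

variable (H : ℤ × ℤ → Submodule ℂ E)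

theorem clifford_step (K : Submodule ℂ E) (ι θ : E →ₗ[ℂ] E) (d e : ℤ)
    (hι : ∀ (p q : ℤ) (x : E), x ∈ H (p, q) → ι x ∈ H (p - d, q - e))
    (hθ : ∀ (p q : ℤ) (x : E), x ∈ H (p, q) → θ x ∈ H (p + d, q + e))
    (hιK : ∀ x ∈ K, ι x ∈ K) (hθK : ∀ x ∈ K, θ x ∈ K) (h2 : ∀ x ∈ K, ι (ι x) = 0)
    (h1 : ∀ x ∈ K, ι (θ x) + θ (ι x) = x) (p q : ℤ) :
    dims H K p q = dims H (K ⊓ LinearMap.ker ι) p q + dims H (K ⊓ LinearMap.ker ι) (p - d) (q - e) := by
  unfold dims
  rw [finrank_split (K ⊓ H (p, q)) ι]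
  have e1 : K ⊓ H (p, q) ⊓ LinearMap.ker ι = K ⊓ LinearMap.ker ι ⊓ H (p, q) := inf_right_comm _ _ _
  have e2 : (K ⊓ H (p, q)).map ι = K ⊓ LinearMap.ker ι ⊓ H (p - d, q - e) := by
    ext x
    simp only [Submodule.mem_map, Submodule.mem_inf, LinearMap.mem_ker]
    constructor
    · rintro ⟨y, ⟨hy1, hy2⟩, rfl⟩
      exact ⟨⟨hιK y hy1, h2 y hy1⟩, hι p q y hy2⟩
    · rintro ⟨⟨hx1, hx2⟩, hx3⟩
      refine ⟨θ x, ⟨hθK x hx1, ?_⟩, ?_⟩
      · have := hθ _ _ x hx3
        simpa using this
      · have := h1 x hx1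
        rw [hx2, map_zero, add_zero] at this
        exact this
  rw [e1, e2]
  push_cast
  ring

theorem clifford_family (L : (ℤ → ℤ → ℤ) → ℤ → ℤ → ℤ) (d e : ℤ)
    (hL : ∀ f p q, L f p q = f p q + f (p - d) (q - e)) {a : ℕ} (ι θ : Fin a → E →ₗ[ℂ] E)
    (hι : ∀ (i : Fin a) (p q : ℤ) (x : E), x ∈ H (p, q) → ι i x ∈ H (p - d, q - e))
    (hθ : ∀ (i : Fin a) (p q : ℤ) (x : E), x ∈ H (p, q) → θ i x ∈ H (p + d, q + e))
    (hιι : ∀ (i j : Fin a) (x : E), ι i (ι j x) = -ι j (ι i x))
    (hιθ : ∀ (i j : Fin a) (x : E), ι i (θ j x) + θ j (ι i x) = if i = j then x else 0)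
    (K : Submodule ℂ E) (hKι : ∀ i, ∀ x ∈ K, ι i x ∈ K) (hKθ : ∀ i, ∀ x ∈ K, θ i x ∈ K)
    (k : ℕ) (hk : k ≤ a) :
    dims H K = L^[k] (dims H (K ⊓ ⨅ i : {i : Fin a // i.val < k}, LinearMap.ker (ι i))) := by
  induction k with
  | zero =>
    have : IsEmpty {i : Fin a // i.val < 0} := ⟨fun i => Nat.not_lt_zero _ i.2⟩
    rw [iInf_of_empty, inf_top_eq]
    rfl
  | succ k ih =>
    have hk' : k < a := hk
    rw [ih hk'.le, Function.iterate_succ_apply]
    congr 1
    set M : Submodule ℂ E := K ⊓ ⨅ i : {i : Fin a // i.val < k}, LinearMap.ker (ι i) with hM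
    have hMmem : ∀ x, x ∈ M ↔ x ∈ K ∧ ∀ i : Fin a, i.val < k → ι i x = 0 := by
      intro x
      simp only [hM, Submodule.mem_inf, Submodule.mem_iInf, LinearMap.mem_ker, Subtype.forall]
    have hM' : K ⊓ ⨅ i : {i : Fin a // i.val < k + 1}, LinearMap.ker (ι i) =
        M ⊓ LinearMap.ker (ι ⟨k, hk'⟩) := by
      ext x
      simp only [hM, Submodule.mem_inf, Submodule.mem_iInf, LinearMap.mem_ker, Subtype.forall]
      constructor
      · rintro ⟨h1, h2⟩
        exact ⟨⟨h1, fun i hi => h2 i (by omega)⟩, h2 ⟨k, hk'⟩ (by simp)⟩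
      · rintro ⟨⟨h1, h2⟩, h3⟩
        refine ⟨h1, fun i hi => ?_⟩
        rcases Nat.lt_succ_iff_lt_or_eq.mp hi with h4 | h4
        · exact h2 i h4
        · have : i = ⟨k, hk'⟩ := Fin.ext h4
          rw [this]
          exact h3
    rw [hM']
    funext p q
    rw [hL]
    refine clifford_step H M (ι ⟨k, hk'⟩) (θ ⟨k, hk'⟩) d e (hι _) (hθ _) ?_ ?_ ?_ ?_ p q
    · intro x hx
      rw [hMmem] at hx ⊢
      refine ⟨hKι _ x hx.1, fun i hi => ?_⟩
      rw [hιι, hx.2 i hi, map_zero, neg_zero]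
    · intro x hx
      rw [hMmem] at hx ⊢
      refine ⟨hKθ _ x hx.1, fun i hi => ?_⟩
      have := hιθ i ⟨k, hk'⟩ x
      rw [hx.2 i hi, map_zero, add_zero, if_neg (by intro h; rw [h] at hi; simp at hi)] at this
      exact this
    · intro x _
      have h1 := hιι ⟨k, hk'⟩ ⟨k, hk'⟩ x
      have h2 : (2 : ℂ) • (ι ⟨k, hk'⟩ (ι ⟨k, hk'⟩ x)) = 0 := by
        rw [two_smul]
        nth_rewrite 1 [h1]
        exact neg_add_cancel _
      exact (smul_eq_zero.mp h2).resolve_left two_ne_zero
    · intro x _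
      have := hιθ ⟨k, hk'⟩ ⟨k, hk'⟩ x
      rwa [if_pos rfl] at this

end Clifford

variable {n : ℕ}

/-- The contraction of the cohomology with a holomorphic vector field: an antiderivation of
type `(-1, 0)`. -/
structure IsContraction (X : KRing n) (f : X.R →ₗ[ℂ] X.R) : Prop where
  mem : ∀ (p q : ℤ) (x : X.R), x ∈ X.H (p, q) → f x ∈ X.H (p - 1, q)
  mul : ∀ (p q : ℤ) (x y : X.R), x ∈ X.H (p, q) →
    f (x * y) = f x * y + ((-1 : ℂ) ^ (p + q)) • (x * f y)

/-- The complex conjugate of a linear map. -/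
noncomputable def conjMap (X : KRing n) (f : X.R →ₗ[ℂ] X.R) : X.R →ₗ[ℂ] X.R :=
  X.bar.comp (f.comp X.bar)

/-- The maps anticommute. -/
def Anti (X : KRing n) (f g : X.R →ₗ[ℂ] X.R) : Prop := ∀ x, f (g x) = -g (f x)

/-- The action on the cohomology of an abelian variety `A` of dimension `a` in the group of
automorphisms of `X` (or of the Albanese variety `A` of the connected algebraic group `Aut⁰(X)`):
the contractions with the holomorphic vector fields `v i` which are a basis of the Lie algebra of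
`A`; they anticommute with each other and with the contractions with the complex conjugate vector
fields. As `A` acts on the Albanese variety of `X` with finite kernel (Nishi, Matsumura), there are
holomorphic one-forms `form j` with `form j (v i) = δ_{ij}`. -/
structure AbelianSymmetry (X : KRing n) (a : ℕ) where
  /-- the contraction with the vector field `v i` -/
  contr : Fin a → X.R →ₗ[ℂ] X.R
  contraction : ∀ i, IsContraction X (contr i)
  anti : ∀ i j, Anti X (contr i) (contr j)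
  anti_conj : ∀ i j, Anti X (contr i) (conjMap X (contr j))
  /-- the holomorphic one-forms -/
  form : Fin a → X.R
  form_mem : ∀ j, form j ∈ X.H (1, 0)
  pairing : ∀ i j, contr i (form j) = if i = j then 1 else 0

/-- The multiplicity of the exterior algebra: the dimensions of the spaces of classes of type
`(p, q)` which are killed by all the contractions. -/
theorem AbelianSymmetry.factor {X : KRing n} {a : ℕ} (S : AbelianSymmetry X a) :
    ∃ k : ℤ → ℤ → ℤ, (∀ p q : ℤ, 0 ≤ k p q ∧ k p q ≤ X.h p q) ∧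
      (fun p q => (X.h p q : ℤ)) = U^[a] (V^[a] k) := by
  have htop : (fun p q => (X.h p q : ℤ)) = dims X.H ⊤ := by
    funext p q
    unfold dims KRing.h
    rw [top_inf_eq]
  set K : Submodule ℂ X.R := ⊤ ⊓ ⨅ i : {i : Fin a // i.val < a}, LinearMap.ker (S.contr i) with hK
  have hKmem : ∀ x, x ∈ K ↔ ∀ i : Fin a, S.contr i x = 0 := by
    intro x
    simp only [hK, Submodule.mem_inf, Submodule.mem_top, true_and, Submodule.mem_iInf,
      LinearMap.mem_ker, Subtype.forall, Fin.is_lt, forall_const]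
  have h1 : dims X.H ⊤ = U^[a] (dims X.H K) := by
    refine clifford_family X.H U 1 0 (fun f p q => by rw [U, sub_zero]) S.contr
      (fun i => LinearMap.mulLeft ℂ (S.form i)) ?_ ?_ S.anti ?_ ⊤ ?_ ?_ a le_rfl
    · intro i p q x hx
      rw [sub_zero]
      exact (S.contraction i).mem p q x hx
    · intro i p q x hx
      have := X.mul_mem (S.form_mem i) hx
      rw [LinearMap.mulLeft_apply]
      rwa [add_comm 1 p, add_comm 0 q] at this
    · intro i j x
      rw [LinearMap.mulLeft_apply, LinearMap.mulLeft_apply, (S.contraction i).mul 1 0 _ _ (S.form_mem j),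
        S.pairing]
      have e : (-1 : ℂ) ^ ((1 : ℤ) + 0) = -1 := by norm_num
      rw [e, neg_smul, one_smul, neg_add_cancel_right]
      split_ifs <;> simp
    · intro i x _; trivial
    · intro i x _; trivial
  set cb : Fin a → X.R →ₗ[ℂ] X.R := fun i =>
    (X.bar.comp ((S.contr i).comp X.bar) : X.R →ₗ[ℂ] X.R) with hcb
  have hcba : ∀ i x, cb i x = X.bar (S.contr i (X.bar x)) := fun i x => rfl
  have hbz : ∀ x, X.bar x = 0 → x = 0 := by
    intro x hx
    rw [← X.bar_bar x, hx, map_zero]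
  have hfz : ∀ i j, S.contr i (X.bar (S.form j)) = 0 := by
    intro i j
    have h1 := (S.contraction i).mem 0 1 _ (X.bar_mem 1 0 _ (S.form_mem j))
    rw [X.van _ _ (by left; norm_num)] at h1
    exact (Submodule.mem_bot ℂ).mp h1
  have h2 : dims X.H K = V^[a] (dims X.H (K ⊓ ⨅ i : {i : Fin a // i.val < a},
      LinearMap.ker (cb i))) := by
    refine clifford_family X.H V 0 1 (fun f p q => by rw [V, sub_zero]) cb
      (fun i => LinearMap.mulLeft ℂ (X.bar (S.form i))) ?_ ?_ ?_ ?_ K ?_ ?_ a le_rfl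
    · intro i p q x hx
      rw [sub_zero, hcba]
      exact X.bar_mem _ _ _ ((S.contraction i).mem q p _ (X.bar_mem _ _ _ hx))
    · intro i p q x hx
      have := X.mul_mem (X.bar_mem _ _ _ (S.form_mem i)) hx
      rw [LinearMap.mulLeft_apply]
      rwa [add_comm 0 p, add_comm 1 q] at this
    · intro i j x
      rw [hcba, hcba, hcba, hcba, X.bar_bar, X.bar_bar, S.anti i j, map_neg]
    · intro i j x
      rw [LinearMap.mulLeft_apply, LinearMap.mulLeft_apply, hcba, hcba, X.bar_mul, X.bar_bar,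
        (S.contraction i).mul 1 0 _ _ (S.form_mem j), S.pairing]
      have e : (-1 : ℂ) ^ ((1 : ℤ) + 0) = -1 := by norm_num
      rw [e, neg_smul, one_smul, map_add, map_neg, X.bar_mul (S.form j), neg_add_cancel_right]
      split_ifs
      · rw [one_mul, X.bar_bar]
      · rw [zero_mul, map_zero]
    · intro i x hx
      rw [hKmem] at hx ⊢
      intro j
      have h3 := S.anti_conj j i x
      rw [hx j, map_zero, neg_zero] at h3
      exact h3
    · intro i x hx
      rw [hKmem] at hx ⊢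
      intro j
      rw [LinearMap.mulLeft_apply, (S.contraction j).mul 0 1 _ _ (X.bar_mem _ _ _ (S.form_mem i)),
        hfz, hx j]
      simp
  refine ⟨_, ?_, htop.trans (h1.trans (by rw [h2]))⟩
  intro p q
  unfold dims KRing.h
  refine ⟨Int.natCast_nonneg _, ?_⟩
  exact_mod_cast Submodule.finrank_mono inf_le_right

theorem diff_factor {X Y : KRing n} {a : ℕ} (S : AbelianSymmetry X a) (S' : AbelianSymmetry Y a) :
    ∃ g : ℤ → ℤ → ℤ, (∀ p q : ℤ, (p < 0 ∨ q < 0 ∨ (n : ℤ) < p ∨ (n : ℤ) < q) → g p q = 0) ∧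
      diff X Y = U^[a] (V^[a] g) := by
  obtain ⟨k, hk, hk'⟩ := S.factor
  obtain ⟨l, hl, hl'⟩ := S'.factor
  refine ⟨k - l, ?_, ?_⟩
  · intro p q hpq
    have h1 := hk p q
    have h2 := hl p q
    rw [X.h_zero hpq] at h1
    rw [Y.h_zero hpq] at h2
    rw [Pi.sub_apply, Pi.sub_apply]
    push_cast at h1 h2
    omega
  · rw [V_iter_sub, U_iter_sub, ← hk', ← hl']
    rfl

/-- **Reduction to the degrees at most `n - a - 3`.** -/
theorem same_of_low {X Y : KRing n} (Φ : FM X Y) {a : ℕ} (S : AbelianSymmetry X a)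
    (S' : AbelianSymmetry Y a) (h : ∀ p q : ℤ, p + q + a + 3 ≤ n → X.h p q = Y.h p q) (p q : ℤ) :
    X.h p q = Y.h p q := by
  obtain ⟨g, hg, hd⟩ := diff_factor S S'
  have hbox : Box n g := fun p q hpq => hg p q (by omega)
  have hrel := (rel_diff Φ).descend ⟨n, hbox⟩ hd
  have hlow : ∀ p q : ℤ, p + q ≤ n - a - 3 → g p q = 0 := by
    refine UV_low hbox _ a ?_
    intro p q hpq
    rw [← hd]
    unfold diff
    rw [h p q (by omega), sub_self]
  have hz : g = 0 := by
    funext p q
    exact hrel.zero (fun p q hpq => hlow p q (by omega)) p q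
  have h1 : diff X Y = 0 := by
    rw [hd, hz]
    have e1 : ∀ b : ℕ, V^[b] (0 : ℤ → ℤ → ℤ) = 0 := by
      intro b
      induction b with
      | zero => rfl
      | succ b ih =>
        rw [Function.iterate_succ_apply', ih]
        funext p q
        simp [V]
    have e2 : ∀ b : ℕ, U^[b] (0 : ℤ → ℤ → ℤ) = 0 := by
      intro b
      induction b with
      | zero => rfl
      | succ b ih =>
        rw [Function.iterate_succ_apply', ih]
        funext p q
        simp [U]
    rw [e1, e2]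
  have h2 := congrFun (congrFun h1 p) q
  unfold diff at h2
  simp only [Pi.zero_apply] at h2
  omega

end Pool.Agent.Helper30.DI
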